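import Pool.Agent.Y581.WN.StmS

/-! # Project WN, NUM: the numbers, for `u = log₂ n + 1` -/

set_option autoImplicit false

namespace Pool.Agent.Y813.WN

open Filter Pool.Agent.TH678.RS Pool.Agent.Y626.WG Pool.Agent.Y581.WN

/-- NUM -/
theorem t_num : S_num := by
  intro t k s G d₂
  set E : ℕ := 2052 + 53 + 2 * s + cst k t + t * (2048 * d₂ * G + 1) + 4 + t + G with hE
  obtain ⟨U, hU⟩ := Filter.eventually_atTop.1 ((ev_poly E 1).and (Filter.eventually_ge_atTop 12))
  refine Filter.eventually_atTop.2 ⟨2 ^ U, fun n hn u hu => ?_⟩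
  have hlog : U ≤ Nat.log 2 n := Nat.le_log_of_pow_le (by norm_num) hn
  obtain ⟨h1, h2⟩ := hU u (by omega)
  have hnu : n < 2 ^ u := by
    rw [hu]
    exact Nat.lt_pow_succ_log_self (by norm_num) n
  clear hu hlog hU
  rw [pow_one] at h1
  have hEu : E ≤ E * (u + 1) := Nat.le_mul_of_pos_right _ (by omega)
  have h22 : 2 ^ u ≤ 2 ^ (2 * u) := Nat.pow_le_pow_right (by norm_num) (by omega)
  refine ⟨by omega, hnu, by omega, ?_, ?_⟩
  · have h3 : 2 ^ (u + 3) ≤ 2 ^ (512 * u) := Nat.pow_le_pow_right (by norm_num) (by omega)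
    have h3' : 2 ^ (u + 3) = 2 ^ u * 8 := by rw [pow_add]; norm_num
    have h4 : (2052 + 53 + 2 * s + cst k t) * (u + 1) ≤ E * (u + 1) :=
      Nat.mul_le_mul_right _ (by omega)
    have h5 : 2 * s + 1 + (4 * (n + 1 + (u + 11) + 512 * u) + 2) + cst k t + 2 ≤
        2 ^ (512 * u) := by
      have h6 : 2 * s + cst k t ≤ (2 * s + cst k t) * (u + 1) :=
        Nat.le_mul_of_pos_right _ (by omega)
      have h7 : (2052 + 53 + 2 * s + cst k t) * (u + 1) =
        2105 * u + 2105 + (2 * s + cst k t) * (u + 1) := by ring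
      omega
    have h6 : 1 ≤ 2 ^ (512 * u) := Nat.one_le_two_pow
    have e : 2 ^ (1024 * u) = 2 ^ (512 * u) * 2 ^ (512 * u) := by
      rw [← pow_add]; congr 1; ring
    rw [e]
    calc 2 * s + 1 + (2 ^ (512 * u) * (4 * (n + 1 + (u + 11) + 512 * u) + 2) + cst k t) + 2
        ≤ 2 ^ (512 * u) * (2 * s + 1 + (4 * (n + 1 + (u + 11) + 512 * u) + 2) + cst k t + 2) := by
          have h7 : 2 * s + 1 + cst k t + 2 ≤ 2 ^ (512 * u) * (2 * s + 1 + cst k t + 2) :=
            Nat.le_mul_of_pos_left _ (by positivity)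
          have e2 : 2 ^ (512 * u) * (2 * s + 1 + (4 * (n + 1 + (u + 11) + 512 * u) + 2) +
            cst k t + 2) = 2 ^ (512 * u) * (2 * s + 1 + cst k t + 2) +
              2 ^ (512 * u) * (4 * (n + 1 + (u + 11) + 512 * u) + 2) := by ring
          omega
      _ ≤ _ := Nat.mul_le_mul_left _ h5
  · set a : ℕ := 2 ^ (u + 11) + t * (2 * (1024 * u * d₂ * G) + 1) + 2 with ha
    set b : ℕ := 2 ^ (2 * u) with hb
    have h3 : a + t + 2 ≤ b := by
      have h4 : 2 ^ (u + 11) + 2 ^ (2 * u - 1) ≤ b := by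
        have h5 : 2 ^ (u + 11) ≤ 2 ^ (2 * u - 1) :=
          Nat.pow_le_pow_right (by norm_num) (by omega)
        have h6 : b = 2 ^ (2 * u - 1) + 2 ^ (2 * u - 1) := by
          rw [hb]
          have : 2 * u = 2 * u - 1 + 1 := by omega
          conv_lhs => rw [this]
          rw [pow_succ]
          ring
        omega
      have h7 : 2 ^ u ≤ 2 ^ (2 * u - 1) := Nat.pow_le_pow_right (by norm_num) (by omega)
      have h8 : (t * (2048 * d₂ * G + 1) + 4 + t) * (u + 1) ≤ E * (u + 1) :=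
        Nat.mul_le_mul_right _ (by omega)
      have h9 : t * (2 * (1024 * u * d₂ * G) + 1) + 2 + t + 2 ≤
          (t * (2048 * d₂ * G + 1) + 4 + t) * (u + 1) := by
        have e1 : t * (2 * (1024 * u * d₂ * G) + 1) = t * (2048 * d₂ * G) * u + t := by ring
        have e2 : (t * (2048 * d₂ * G + 1) + 4 + t) * (u + 1) =
          t * (2048 * d₂ * G) * u + t * (2048 * d₂ * G) + t * u + t + 4 * u + 4 + t * u + t := by
          ring
        rw [e1, e2]
        have : 0 ≤ t * u := Nat.zero_le _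
        omega
      omega
    have h4 : (t : ℝ) ≤ 2 ^ t := by exact_mod_cast (Nat.lt_two_pow_self (n := t)).le
    have h5 : (t : ℝ) * (2 ^ a * (1 / 2) ^ (b + 1)) ≤ 1 / 8 := by
      have h6 : (2 : ℝ) ^ (a + t + 2) ≤ 2 ^ b := pow_le_pow_right₀ (by norm_num) h3
      have h7 : (0 : ℝ) < 2 ^ b := by positivity
      have h8 : (1 / 2 : ℝ) ^ (b + 1) = 1 / (2 ^ b * 2) := by
        rw [one_div, inv_pow, pow_succ, one_div]
      rw [h8]
      have h9 : (t : ℝ) * 2 ^ a ≤ 2 ^ b / 4 := by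
        have h10 : (t : ℝ) * 2 ^ a ≤ 2 ^ t * 2 ^ a := by gcongr
        have h11 : (2 : ℝ) ^ (a + t + 2) = 2 ^ t * 2 ^ a * 4 := by
          rw [pow_add, pow_add]; ring
        linarith
      have h10 : (t : ℝ) * (2 ^ a * (1 / (2 ^ b * 2))) = t * 2 ^ a / (2 ^ b * 2) := by ring
      rw [h10, div_le_iff₀ (by positivity)]
      linarith
    have h6 : 3 * (1 / 2 : ℝ) ^ (2 ^ u) ≤ 3 / 4 := by
      have h7 : (1 / 2 : ℝ) ^ (2 ^ u) ≤ (1 / 2) ^ 2 := by
        refine pow_le_pow_of_le_one (by norm_num) (by norm_num) ?_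
        calc 2 = 2 ^ 1 := by norm_num
          _ ≤ 2 ^ u := Nat.pow_le_pow_right (by norm_num) (by omega)
      norm_num at h7 ⊢
      linarith
    linarith

end Pool.Agent.Y813.WN
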