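import Pool.Agent.Y581.WN.StmB

/-! # Project WN, NUMK and COST: the numbers of part B -/

set_option autoImplicit false

namespace Pool.Agent.Y813.WN

open Filter Pool.Agent.TH678.RS Pool.Agent.Y626.WG Pool.Agent.Y581.WN

theorem real_ineq {t a b u : ℕ} (h3 : a + t + 2 ≤ b) (hu : 1 ≤ u) :
    (t : ℝ) * (2 ^ a * (1 / 2) ^ (b + 1)) + 3 * (1 / 2) ^ (2 ^ u) < 1 := by
  have h4 : (t : ℝ) ≤ 2 ^ t := by exact_mod_cast (Nat.lt_two_pow_self (n := t)).le
  have h5 : (t : ℝ) * (2 ^ a * (1 / 2) ^ (b + 1)) ≤ 1 / 8 := by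
    have h6 : (2 : ℝ) ^ (a + t + 2) ≤ 2 ^ b := pow_le_pow_right₀ (by norm_num) h3
    have h7 : (0 : ℝ) < 2 ^ b := by positivity
    have h8 : (1 / 2 : ℝ) ^ (b + 1) = 1 / (2 ^ b * 2) := by
      rw [one_div, inv_pow, pow_succ, one_div]
    rw [h8]
    have h9 : (t : ℝ) * 2 ^ a ≤ 2 ^ b / 4 := by
      have h10 : (t : ℝ) * 2 ^ a ≤ 2 ^ t * 2 ^ a := by gcongr
      have h11 : (2 : ℝ) ^ (a + t + 2) = 2 ^ t * 2 ^ a * 4 := by
        rw [pow_add, pow_add]; ring
      linarith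
    have h10 : (t : ℝ) * (2 ^ a * (1 / (2 ^ b * 2))) = t * 2 ^ a / (2 ^ b * 2) := by ring
    rw [h10, div_le_iff₀ (by positivity)]
    linarith
  have h6 : 3 * (1 / 2 : ℝ) ^ (2 ^ u) ≤ 3 / 4 := by
    have h7 : (1 / 2 : ℝ) ^ (2 ^ u) ≤ (1 / 2) ^ 2 := by
      refine pow_le_pow_of_le_one (by norm_num) (by norm_num) ?_
      calc 2 = 2 ^ 1 := by norm_num
        _ ≤ 2 ^ u := Nat.pow_le_pow_right (by norm_num) (by omega)
    norm_num at h7 ⊢
    linarith
  linarith

theorem pow_ineq {u u' k : ℕ} (h1 : (2 ^ 512 + (512 * k + 1)) * (u + 1) ^ 512 < 2 ^ u)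
    (hwu : 2 ^ u' ≤ 2 * u) : 2 ^ (512 * u') + (512 * u * k + 1) ≤ 2 ^ (512 * u) := by
  have h6 : 2 ^ u ≤ 2 ^ (512 * u) :=
    Nat.pow_le_pow_right (by norm_num) (Nat.le_mul_of_pos_left u (by norm_num))
  have h7 := h1.le.trans h6
  clear h1 h6
  have h4 : 2 ^ (512 * u') ≤ 2 ^ 512 * (u + 1) ^ 512 := by
    calc 2 ^ (512 * u') = (2 ^ u') ^ 512 := by rw [← pow_mul, mul_comm]
      _ ≤ (2 * u) ^ 512 := Nat.pow_le_pow_left hwu 512
      _ = 2 ^ 512 * u ^ 512 := mul_pow _ _ _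
      _ ≤ 2 ^ 512 * (u + 1) ^ 512 :=
        Nat.mul_le_mul_left _ (Nat.pow_le_pow_left (Nat.le_succ u) 512)
  have h8 : (512 * k + 1) * (u + 1) ≤ (512 * k + 1) * (u + 1) ^ 512 :=
    Nat.mul_le_mul_left _ (Nat.le_self_pow (by norm_num) _)
  rw [add_mul] at h7
  generalize (u + 1) ^ 512 = X at h4 h7 h8
  have h9 : (512 * k + 1) * (u + 1) = 512 * u * k + 1 + (512 * k + u) := by ring
  have h5 : 512 * u * k + 1 ≤ (512 * k + 1) * X := by
    rw [h9] at h8
    exact (Nat.le_add_right _ _).trans h8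
  exact (Nat.add_le_add h4 h5).trans h7

/-- NUMK -/
theorem t_numk : S_numk := by
  intro t k s C G d₂
  obtain ⟨U, hU⟩ := Filter.eventually_atTop.1 ((ev_poly (2 ^ 512 + (512 * k + 1)) 512).and
    ((ev_poly (2 * s + 3 + 513 * C + 12 * C + 1) 1).and
      (Filter.eventually_ge_atTop (2 ^ (2048 + 2048 * t * d₂ * G + 2 * t + 4 + G)))))
  refine Filter.eventually_atTop.2 ⟨2 ^ U, fun n hn u u' hu hu' => ?_⟩
  have hlog : U ≤ Nat.log 2 n := Nat.le_log_of_pow_le (by norm_num) hn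
  obtain ⟨h1, h2, h3⟩ := hU u (by omega)
  have hnu : n < 2 ^ u := by
    rw [hu]
    exact Nat.lt_pow_succ_log_self (by norm_num) n
  have hlog' : 2048 + 2048 * t * d₂ * G + 2 * t + 4 + G ≤ Nat.log 2 u :=
    Nat.le_log_of_pow_le (by norm_num) h3
  have huw : u < 2 ^ u' := by
    rw [hu']
    exact Nat.lt_pow_succ_log_self (by norm_num) u
  have hu0 : u ≠ 0 := by omega
  have hwu : 2 ^ u' ≤ 2 * u := by
    rw [hu', pow_succ]
    have := Nat.pow_log_le_self 2 hu0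
    omega
  have hu'u : u' ≤ u := by
    have := Nat.log_lt_of_lt_pow hu0 (Nat.lt_two_pow_self (n := u))
    omega
  have hu'b : 2048 + 2048 * t * d₂ * G + 2 * t + 4 + G < u' := by omega
  have hd := pow_ineq h1 hwu
  clear hu hu' hlog hlog' hU h3 hn h1
  rw [pow_one] at h2
  refine ⟨by omega, hu'u, ?_, ?_, ?_, ?_⟩
  · have h4 : 2 * u' < 2 ^ (2 * u') := Nat.lt_two_pow_self
    omega
  · exact hd
  · have h4 : C < 2 ^ u := by
      have : (2 * s + 3 + 513 * C + 12 * C + 1) ≤ (2 * s + 3 + 513 * C + 12 * C + 1) * (u + 1) :=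
        Nat.le_mul_of_pos_right _ (by omega)
      omega
    have h5 : 2 * s + 3 + C * (513 * u + 12) ≤ 2 ^ u := by
      have : (2 * s + 3 + 513 * C + 12 * C + 1) * (u + 1) = 2 * s + 3 + C * (513 * u + 12) +
        ((2 * s + 3) * u + 513 * C + 12 * (C * u) + u + 1) := by ring
      omega
    have h6 : n + (u' + 11) + 512 * u + 1 ≤ 2 ^ u + (513 * u + 12) := by omega
    have h7 : 2 ^ u + 2 ^ u * 2 ^ u ≤ 2 ^ (512 * u) := by
      have h8 : 2 ^ (2 * u + 1) ≤ 2 ^ (512 * u) := Nat.pow_le_pow_right (by norm_num) (by omega)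
      have h9 : 2 ^ (2 * u + 1) = 2 ^ u * 2 ^ u + 2 ^ u * 2 ^ u := by
        rw [pow_succ, two_mul, pow_add]; ring
      have h10 : 2 ^ u ≤ 2 ^ u * 2 ^ u := Nat.le_mul_of_pos_left _ (by positivity)
      omega
    have e : 2 ^ (1024 * u) = 2 ^ (512 * u) * 2 ^ (512 * u) := by
      rw [← pow_add]; congr 1; ring
    rw [e]
    have hP : 1 ≤ 2 ^ (512 * u) := Nat.one_le_two_pow
    generalize 2 ^ (512 * u) = P at *
    generalize 2 ^ u = Y at *
    generalize n + (u' + 11) + 512 * u + 1 = m at *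
    generalize hz : 513 * u + 12 = z at *
    calc 2 * s + 1 + C * P * m + 2 ≤ (2 * s + 3) * P + C * P * (Y + z) := by
          have h8 : C * P * m ≤ C * P * (Y + z) := Nat.mul_le_mul_left _ h6
          have h9 : 2 * s + 3 ≤ (2 * s + 3) * P := Nat.le_mul_of_pos_right _ hP
          omega
      _ = P * ((2 * s + 3 + C * z) + C * Y) := by ring
      _ ≤ P * (Y + Y * Y) := by
          apply Nat.mul_le_mul_left
          exact Nat.add_le_add h5 (Nat.mul_le_mul_right _ h4.le)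
      _ ≤ P * P := Nat.mul_le_mul_left _ h7
  · refine real_ineq ?_ (by omega)
    have h4 : u' < 2 ^ u' := Nat.lt_two_pow_self
    have e1 : 2 ^ (u' + 11) = 2 ^ u' * 2048 := by rw [pow_add]; norm_num
    have e2 : 2 ^ (2 * u') = 2 ^ u' * 2 ^ u' := by rw [two_mul, pow_add]
    rw [e1, e2]
    generalize 2 ^ u' = w at *
    have h5 : (2048 + 2048 * t * d₂ * G + 2 * t + 4) * w ≤ w * w :=
      Nat.mul_le_mul_right _ (by omega)
    have h6 : t * (2 * (1024 * u * d₂ * G) + 1) = 2048 * t * d₂ * G * u + t := by ring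
    have h7 : 2048 * t * d₂ * G * u ≤ 2048 * t * d₂ * G * w := Nat.mul_le_mul_left _ huw.le
    have h8 : (2 * t + 4) ≤ (2 * t + 4) * w := Nat.le_mul_of_pos_right _ (by omega)
    have h9 : (2048 + 2048 * t * d₂ * G + 2 * t + 4) * w =
      w * 2048 + 2048 * t * d₂ * G * w + (2 * t + 4) * w := by ring
    rw [h6]
    omega

/-- COST -/
theorem t_cost : S_cost := by
  intro t k
  refine ⟨512 * t + 515, Filter.eventually_atTop.2
    ⟨2 ^ (2048 * (512 * k + 2) * 4 ^ (512 * t + 514) + 1), fun n hn u u' hu hu' τ rest hr hτ hrest => ?_⟩⟩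
  have hL : 2048 * (512 * k + 2) * 4 ^ (512 * t + 514) + 1 ≤ Nat.log 2 n :=
    Nat.le_log_of_pow_le (by norm_num) hn
  generalize Nat.log 2 n = L at *
  have hu0 : u ≠ 0 := by omega
  have huL : u ≤ 2 * L := by omega
  have huw : u < 2 ^ u' := by
    rw [hu']
    exact Nat.lt_pow_succ_log_self (by norm_num) u
  have hwu : 2 ^ u' ≤ 2 * u := by
    rw [hu', pow_succ]
    have := Nat.pow_log_le_self 2 hu0
    omega
  have hsum : rest.sum ≤ t * (512 * u') := by
    rw [← hr]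
    simpa using List.sum_le_card_nsmul rest (512 * u') hrest
  have a1 : 2 ^ (u' + 11) = 2048 * 2 ^ u' := by rw [pow_add, mul_comm]; norm_num
  have a2 : 2 ^ τ ≤ (2 ^ u') ^ 512 := by
    rw [← pow_mul]
    exact Nat.pow_le_pow_right (by norm_num) (by omega)
  have a3 : 2 ^ rest.sum ≤ (2 ^ u') ^ (512 * t) := by
    rw [← pow_mul]
    refine Nat.pow_le_pow_right (by norm_num) (hsum.trans (le_of_eq ?_))
    ring
  rw [a1]
  generalize 2 ^ u' = w at *
  have hw1 : 1 ≤ w := by omega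
  have a4 : 512 * u * k + 1 ≤ (512 * k + 1) * w := by
    have b1 : 512 * u * k = 512 * k * u := by ring
    have b2 : (512 * k + 1) * w = 512 * k * w + w := by ring
    rw [b1, b2]
    exact Nat.add_le_add (Nat.mul_le_mul_left _ huw.le) hw1
  have a5 : w ≤ w ^ (512 * t + 1) := Nat.le_self_pow (by omega) _
  have a6 : w ^ (512 * t) ≤ w ^ (512 * t + 1) := Nat.pow_le_pow_right hw1 (by omega)
  have a7 : 512 * u * k + 1 + 2 ^ rest.sum ≤ (512 * k + 2) * w ^ (512 * t + 1) := by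
    calc 512 * u * k + 1 + 2 ^ rest.sum ≤ (512 * k + 1) * w ^ (512 * t + 1) + w ^ (512 * t + 1) :=
          Nat.add_le_add (a4.trans (Nat.mul_le_mul_left _ a5)) (a3.trans a6)
      _ = (512 * k + 2) * w ^ (512 * t + 1) := by
          generalize w ^ (512 * t + 1) = z
          ring
  calc 2048 * w * 2 ^ τ * (512 * u * k + 1 + 2 ^ rest.sum)
      ≤ 2048 * w * w ^ 512 * ((512 * k + 2) * w ^ (512 * t + 1)) :=
        Nat.mul_le_mul (Nat.mul_le_mul_left _ a2) a7
    _ = 2048 * (512 * k + 2) * w ^ (512 * t + 514) := by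
        have : w ^ (512 * t + 514) = w * w ^ 512 * w ^ (512 * t + 1) := by
          rw [← pow_succ', ← pow_add]
          congr 1
          ring
        rw [this]
        generalize w ^ (512 * t + 1) = z
        generalize w ^ 512 = y
        ring
    _ ≤ 2048 * (512 * k + 2) * (4 * L) ^ (512 * t + 514) :=
        Nat.mul_le_mul_left _ (Nat.pow_le_pow_left (by omega) _)
    _ = 2048 * (512 * k + 2) * 4 ^ (512 * t + 514) * L ^ (512 * t + 514) := by
        rw [mul_pow, ← mul_assoc]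
    _ ≤ L * L ^ (512 * t + 514) := Nat.mul_le_mul_right _ (by omega)
    _ = L ^ (512 * t + 515) := by rw [← pow_succ']

end Pool.Agent.Y813.WN
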